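import Pool.Agent.K4H73.Secure.Step
import Pool.Agent.K4H73.Secure.Counter

set_option autoImplicit false

namespace Pool.Agent.Results.MP_82f784_co.SecureThreshold

open SimpleGraph Pool.Agent.K4H73.Secure

/-- For `t ≥ 6`, the inequality `γ_s(G) ≤ (3 / 2) α(G)` holds for all finite graphs `G` without an
induced path on `t` vertices if and only if `t = 6`. -/
theorem result : ∀ t : ℕ, 6 ≤ t →
    ((∀ (V : Type) [Fintype V] (G : SimpleGraph V), ¬ (pathGraph t) ⊴ G →
      (secureDominationNumber G : ℝ) ≤ 3 / 2 * (G.indepNum : ℝ)) ↔ t = 6) := by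
  intro t ht
  constructor
  · intro h
    by_contra hne
    have h1 := h (ZMod 127) cubeGraph (cubeGraph_free (by omega))
    have h2 := five_le
    have h3 := indepNum_cubeGraph
    have h4 : (5 : ℝ) ≤ (secureDominationNumber cubeGraph : ℝ) := by exact_mod_cast h2
    have h5 : (cubeGraph.indepNum : ℝ) ≤ 3 := by exact_mod_cast h3
    linarith
  · rintro rfl V _ G hG
    have h1 := secure_le_of_P6_free hG
    have h2 : (2 : ℝ) * (secureDominationNumber G : ℝ) ≤ 3 * (G.indepNum : ℝ) := by
      exact_mod_cast h1
    linarith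

end Pool.Agent.Results.MP_82f784_co.SecureThreshold
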